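import Pool.Agent.J4H12.MX.Stm2
import Pool.Agent.J4H23.MX.Phi

/-! # Project MX: (PHF), the Frattini subgroup of a finitely generated pro-`p` group is open (helper42) -/

set_option autoImplicit false

universe u

namespace Pool.Agent.J4H42.MX

open Pool.Agent.J4H12.MX

/-- finitely many cosets of `D` cover the abstract subgroup generated by a finite set -/
theorem cover {G : Type u} [Group G] {p : ℕ} (hp : p.Prime) (S : Finset G) (P D : Subgroup G)
    (hAP : Subgroup.closure (S : Set G) ≤ P) (hpow : ∀ a ∈ P, a ^ p ∈ D)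
    (hcomm : ∀ a ∈ P, ∀ b ∈ P, a * b * a⁻¹ * b⁻¹ ∈ D) (hDP : D ≤ P) :
    ∃ F : Set G, F.Finite ∧ ∀ h ∈ Subgroup.closure (S : Set G), ∃ f ∈ F, f⁻¹ * h ∈ D := by
  set A : Subgroup G := Subgroup.closure (S : Set G) with hA
  haveI hn : (D.subgroupOf A).Normal := by
    refine ⟨fun n hn g => ?_⟩
    rw [Subgroup.mem_subgroupOf] at hn ⊢
    have h1 := mul_mem (hcomm g (hAP g.2) n (hDP hn)) hn
    have h2 : (g : G) * n * (g : G)⁻¹ * (n : G)⁻¹ * n = g * n * (g : G)⁻¹ := by group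
    rw [h2] at h1
    exact h1
  haveI hfg : Group.FG A := by rw [hA]; exact Group.closure_finset_fg S
  haveI hfgQ : Group.FG (A ⧸ D.subgroupOf A) := inferInstance
  have hcm : ∀ a b : A ⧸ D.subgroupOf A, a * b = b * a := by
    intro a b
    induction a using QuotientGroup.induction_on with
    | H a =>
      induction b using QuotientGroup.induction_on with
      | H b =>
        rw [← QuotientGroup.mk_mul, ← QuotientGroup.mk_mul, QuotientGroup.eq, Subgroup.mem_subgroupOf]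
        have h1 := hcomm (b : G)⁻¹ (inv_mem (hAP b.2)) (a : G)⁻¹ (inv_mem (hAP a.2))
        have h2 : (b : G)⁻¹ * (a : G)⁻¹ * ((b : G)⁻¹)⁻¹ * ((a : G)⁻¹)⁻¹ = ((a * b)⁻¹ * (b * a) : A) := by
          push_cast
          group
        rw [h2] at h1
        exact h1
  have hfin : Finite (A ⧸ D.subgroupOf A) := by
    letI : CommGroup (A ⧸ D.subgroupOf A) := { (inferInstance : Group (A ⧸ D.subgroupOf A)) with mul_comm := hcm }
    refine @CommGroup.finite_of_fg_torsion _ this hfgQ ?_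
    intro q
    induction q using QuotientGroup.induction_on with
    | H a =>
      rw [isOfFinOrder_iff_pow_eq_one]
      refine ⟨p, hp.pos, ?_⟩
      have h0 : ((QuotientGroup.mk a : A ⧸ D.subgroupOf A)) ^ p = 1 := by
        rw [← QuotientGroup.mk_pow, QuotientGroup.eq_one_iff, Subgroup.mem_subgroupOf]
        exact hpow a (hAP a.2)
      exact h0
  refine ⟨Set.range (fun q : A ⧸ D.subgroupOf A => ((Quotient.out q : A) : G)), Set.finite_range _, ?_⟩
  intro h hh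
  refine ⟨_, ⟨QuotientGroup.mk ⟨h, hh⟩, rfl⟩, ?_⟩
  have h1 : (QuotientGroup.mk (Quotient.out (QuotientGroup.mk ⟨h, hh⟩ : A ⧸ D.subgroupOf A)) : A ⧸ D.subgroupOf A) =
      QuotientGroup.mk ⟨h, hh⟩ := QuotientGroup.out_eq' _
  rw [QuotientGroup.eq, Subgroup.mem_subgroupOf] at h1
  exact h1

/-- (PHF) -/
theorem t_PHF : S_PHF.{u} := by
  intro G _ _ _ _ _ p P hp hP _ hfg
  classical
  obtain ⟨S, hS⟩ := hfg
  set 𝓜 : Set (Subgroup G) :=
    {M | IsClosed (M : Set G) ∧ M ≤ P ∧ M.relIndex P = p ∧ Nz P M} with h𝓜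
  set D : Subgroup G := P ⊓ sInf 𝓜 with hD
  have hDP : D ≤ P := inf_le_left
  have hDM : ∀ M ∈ 𝓜, D ≤ M := fun M hM => inf_le_right.trans (sInf_le hM)
  have hDcl : IsClosed (D : Set G) := by
    rw [hD, Subgroup.coe_inf, Subgroup.coe_sInf]
    exact hP.inter (isClosed_biInter fun M hM => hM.1)
  have hmem : ∀ g ∈ P, (∀ M ∈ 𝓜, g ∈ M) → g ∈ D := fun g hg h =>
    Subgroup.mem_inf.2 ⟨hg, Subgroup.mem_sInf.2 h⟩
  have hpow : ∀ a ∈ P, a ^ p ∈ D := fun a ha =>
    hmem _ (pow_mem ha _) fun M hM => (J4H23.MX.key hp hM.2.2.1 hM.2.2.2).1 a ha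
  have hcomm : ∀ a ∈ P, ∀ b ∈ P, a * b * a⁻¹ * b⁻¹ ∈ D := fun a ha b hb =>
    hmem _ (mul_mem (mul_mem (mul_mem ha hb) (inv_mem ha)) (inv_mem hb)) fun M hM =>
      (J4H23.MX.key hp hM.2.2.1 hM.2.2.2).2 a ha b hb
  have hAP : Subgroup.closure (S : Set G) ≤ P := by
    intro x hx
    have h1 : x ∈ (P : Set G) := by
      rw [hS]
      exact subset_closure hx
    exact h1
  obtain ⟨F, hF, hAF⟩ := cover hp S P D hAP hpow hcomm hDP
  have hHF : ∀ h ∈ P, ∃ f ∈ F, f⁻¹ * h ∈ D := by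
    have hclC : IsClosed (⋃ f ∈ F, {g : G | f⁻¹ * g ∈ D}) :=
      hF.isClosed_biUnion fun f _ => hDcl.preimage (continuous_const.mul continuous_id)
    have h1 : (Subgroup.closure (S : Set G) : Set G) ⊆ ⋃ f ∈ F, {g : G | f⁻¹ * g ∈ D} := by
      intro x hx
      obtain ⟨f, hf, hf2⟩ := hAF x hx
      simp only [Set.mem_iUnion, exists_prop]
      exact ⟨f, hf, hf2⟩
    have h2 := closure_minimal h1 hclC
    intro h hh
    have h3 : h ∈ (P : Set G) := hh
    rw [hS] at h3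
    have h4 := h2 h3
    simp only [Set.mem_iUnion, exists_prop] at h4
    exact h4
  -- an open normal subgroup
  have hcl : IsClosed (⋃ f ∈ {f ∈ F | f ∉ D}, {g | f⁻¹ * g ∈ D}) := by
    refine (hF.subset (Set.sep_subset _ _)).isClosed_biUnion fun f _ => ?_
    exact hDcl.preimage (continuous_const.mul continuous_id)
  have h1 : (1 : G) ∈ (⋃ f ∈ {f ∈ F | f ∉ D}, {g | f⁻¹ * g ∈ D})ᶜ := by
    simp only [Set.mem_compl_iff, Set.mem_iUnion, Set.mem_ofPred_eq, exists_prop, not_exists,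
      not_and]
    rintro f ⟨-, hf⟩ h
    rw [mul_one] at h
    exact hf (inv_mem_iff.1 h)
  obtain ⟨N, hN⟩ := ProfiniteGrp.exist_openNormalSubgroup_sub_open_nhds_of_one hcl.isOpen_compl h1
  refine ⟨N.toSubgroup, ⟨N.isNormal', N.isOpen'⟩, fun M hM1 hM2 hM3 hM4 => ?_⟩
  refine le_trans ?_ (hDM M ⟨hM1, hM2, hM3, hM4⟩)
  rintro g ⟨hgN, hgP⟩
  by_contra hgD
  obtain ⟨f, hf, hf2⟩ := hHF g hgP
  refine hN hgN ?_
  simp only [Set.mem_iUnion, Set.mem_ofPred_eq, exists_prop]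
  refine ⟨f, ⟨hf, fun hfD => hgD ?_⟩, hf2⟩
  have h2 := mul_mem hfD hf2
  rw [mul_inv_cancel_left] at h2
  exact h2

end Pool.Agent.J4H42.MX
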